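import Pool.Agent.Helper9.Ends.Defs

/-!
# Modules EN-9b and EN-9d: cone conditions and local connectedness of the complement
-/

set_option autoImplicit false

open Set Filter Metric Topology
open scoped ContDiff

namespace Pool.Agent.EN

theorem exists_unit_pos {L : ℂ →L[ℝ] ℝ} (hL : L ≠ 0) : ∃ ν : ℂ, ‖ν‖ = 1 ∧ 0 < L ν := by
  obtain ⟨v, hv⟩ : ∃ v, L v ≠ 0 := by
    by_contra h
    push Not at h
    exact hL (ContinuousLinearMap.ext h)
  have hv0 : v ≠ 0 := by
    rintro rfl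
    exact hv (map_zero L)
  have hn : 0 < ‖v‖ := norm_pos_iff.2 hv0
  rcases lt_or_gt_of_ne hv with h | h
  · refine ⟨(-‖v‖⁻¹) • v, ?_, ?_⟩
    · rw [norm_smul, norm_neg, norm_inv, norm_norm, inv_mul_cancel₀ hn.ne']
    · rw [map_smul, smul_eq_mul]
      exact mul_pos_of_neg_of_neg (by simpa using hn) h
  · refine ⟨(‖v‖⁻¹) • v, ?_, ?_⟩
    · rw [norm_smul, norm_inv, norm_norm, inv_mul_cancel₀ hn.ne']
    · rw [map_smul, smul_eq_mul]
      exact mul_pos (by simpa using hn) h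

theorem C2Domain.not_mem_of_frontier {Ω : Set ℂ} (hΩ : C2Domain Ω) {p : ℂ}
    (hp : p ∈ frontier Ω) : p ∉ Ω := by
  intro h
  rw [hΩ.isOpen.frontier_eq] at hp
  exact hp.2 h

/-- EN-9b: interior and exterior cone conditions -/
theorem cone {Ω : Set ℂ} (hΩ : C2Domain Ω) {p : ℂ} (hp : p ∈ frontier Ω) :
    ∃ (ν : ℂ) (δ η c : ℝ), ‖ν‖ = 1 ∧ 0 < δ ∧ 0 < η ∧ 0 < c ∧
      (∀ z ∈ Ω, dist z p < δ → ∀ t : ℝ, 0 < t → t ≤ η → ball (z - t * ν) (c * t) ⊆ Ω) ∧
      (∀ z ∉ Ω, dist z p < δ → ∀ t : ℝ, 0 < t → t ≤ η → ball (z + t * ν) (c * t) ⊆ Ωᶜ) := by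
  obtain ⟨ρ, hρ, hL, hloc⟩ := hΩ.smooth p hp
  obtain ⟨ν, hν, hg⟩ := exists_unit_pos hL
  set L : ℂ →L[ℝ] ℝ := fderiv ℝ ρ p with hLdef
  set g : ℝ := L ν with hgdef
  have hgL : g ≤ ‖L‖ := by
    have := L.le_opNorm ν
    rw [hν, mul_one] at this
    exact (le_abs_self _).trans this
  have hLpos : 0 < ‖L‖ + 1 := by positivity
  have hstrict : HasStrictFDerivAt ρ L p := hρ.hasStrictFDerivAt (by norm_num)
  have hbd : ∀ᶠ q : ℂ × ℂ in 𝓝 (p, p), ‖ρ q.1 - ρ q.2 - L (q.1 - q.2)‖ ≤ g / 8 * ‖q.1 - q.2‖ :=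
    hstrict.isLittleO.bound (by positivity)
  have hloc2 : ∀ᶠ q : ℂ × ℂ in 𝓝 (p, p), (q.1 ∈ Ω ↔ ρ q.1 < 0) ∧ (q.2 ∈ Ω ↔ ρ q.2 < 0) := by
    rw [nhds_prod_eq]
    exact hloc.prod_mk hloc
  obtain ⟨R, hR, hball⟩ := Metric.eventually_nhds_iff_ball.1 (hbd.and hloc2)
  have key : ∀ x y : ℂ, dist x p < R → dist y p < R →
      |ρ x - ρ y - L (x - y)| ≤ g / 8 * ‖x - y‖ ∧ (x ∈ Ω ↔ ρ x < 0) ∧ (y ∈ Ω ↔ ρ y < 0) := by
    intro x y hx hy
    have := hball (x, y) (by
      rw [Metric.mem_ball, Prod.dist_eq]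
      exact max_lt hx hy)
    exact this
  set c : ℝ := g / (4 * (‖L‖ + 1)) with hc
  have hc0 : 0 < c := by positivity
  have hc1 : c ≤ 1 := by
    rw [hc, div_le_one (by positivity)]
    linarith
  have hcL : ‖L‖ * c ≤ g / 4 := by
    rw [hc, mul_div_assoc', div_le_div_iff₀ (by positivity) (by norm_num)]
    nlinarith [norm_nonneg L]
  refine ⟨ν, R / 2, R / 4, c, hν, by positivity, by positivity, hc0, ?_, ?_⟩
  · intro z hz hzp t ht0 ht x hx
    have hx1 : ‖x - (z - t * ν)‖ < c * t := by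
      rwa [mem_ball, dist_eq_norm] at hx
    set s : ℂ := x - (z - t * ν) with hs
    have hxs : x - z = -((t : ℂ) * ν) + s := by rw [hs]; ring
    have htν : ‖(t : ℂ) * ν‖ = t := by
      rw [norm_mul, hν, mul_one, Complex.norm_real, Real.norm_of_nonneg ht0.le]
    have hst : ‖s‖ < t := hx1.trans_le (by nlinarith)
    have hxz : ‖x - z‖ ≤ 2 * t := by
      rw [hxs]
      refine (norm_add_le _ _).trans ?_
      rw [norm_neg, htν]
      linarith
    have hxp : dist x p < R := by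
      calc dist x p ≤ dist x z + dist z p := dist_triangle _ _ _
        _ < 2 * t + R / 2 := by rw [dist_eq_norm x z]; linarith
        _ ≤ R := by linarith
    obtain ⟨h1, h2, h3⟩ := key x z hxp (by linarith)
    rw [h2]
    have hρz : ρ z < 0 := h3.1 hz
    have hLx : L (x - z) = -(t * g) + L s := by
      rw [hxs, map_add, map_neg, ← Complex.real_smul, map_smul, smul_eq_mul]
    have hLs : |L s| ≤ ‖L‖ * (c * t) := by
      refine (L.le_opNorm s).trans ?_
      exact mul_le_mul_of_nonneg_left hx1.le (norm_nonneg _)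
    have h4 := (abs_le.1 h1).2
    have h5 := (abs_le.1 hLs).2
    have h6 : ‖L‖ * (c * t) ≤ g / 4 * t := by
      rw [← mul_assoc]
      exact mul_le_mul_of_nonneg_right hcL ht0.le
    have h7 : g / 8 * ‖x - z‖ ≤ g / 8 * (2 * t) := mul_le_mul_of_nonneg_left hxz (by positivity)
    have h8 : 0 < g * t := by positivity
    rw [hLx] at h4
    nlinarith
  · intro z hz hzp t ht0 ht x hx
    have hx1 : ‖x - (z + t * ν)‖ < c * t := by
      rwa [mem_ball, dist_eq_norm] at hx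
    set s : ℂ := x - (z + t * ν) with hs
    have hxs : x - z = (t : ℂ) * ν + s := by rw [hs]; ring
    have htν : ‖(t : ℂ) * ν‖ = t := by
      rw [norm_mul, hν, mul_one, Complex.norm_real, Real.norm_of_nonneg ht0.le]
    have hst : ‖s‖ < t := hx1.trans_le (by nlinarith)
    have hxz : ‖x - z‖ ≤ 2 * t := by
      rw [hxs]
      refine (norm_add_le _ _).trans ?_
      rw [htν]
      linarith
    have hxp : dist x p < R := by
      calc dist x p ≤ dist x z + dist z p := dist_triangle _ _ _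
        _ < 2 * t + R / 2 := by rw [dist_eq_norm x z]; linarith
        _ ≤ R := by linarith
    obtain ⟨h1, h2, h3⟩ := key x z hxp (by linarith)
    rw [mem_compl_iff, h2, not_lt]
    have hρz : 0 ≤ ρ z := by
      by_contra h
      exact hz (h3.2 (not_le.1 h))
    have hLx : L (x - z) = t * g + L s := by
      rw [hxs, map_add, ← Complex.real_smul, map_smul, smul_eq_mul]
    have hLs : |L s| ≤ ‖L‖ * (c * t) := by
      refine (L.le_opNorm s).trans ?_
      exact mul_le_mul_of_nonneg_left hx1.le (norm_nonneg _)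
    have h4 := (abs_le.1 h1).1
    have h5 := (abs_le.1 hLs).1
    have h6 : ‖L‖ * (c * t) ≤ g / 4 * t := by
      rw [← mul_assoc]
      exact mul_le_mul_of_nonneg_right hcL ht0.le
    have h7 : g / 8 * ‖x - z‖ ≤ g / 8 * (2 * t) := mul_le_mul_of_nonneg_left hxz (by positivity)
    have h8 : 0 < g * t := by positivity
    rw [hLx] at h4
    nlinarith

/-- EN-9d (uses EN-9b) -/
theorem compl_local {Ω : Set ℂ} (hΩ : C2Domain Ω) {p : ℂ} (hp : p ∈ frontier Ω) :
    ∃ (δ : ℝ) (S : Set ℂ), 0 < δ ∧ S ⊆ Ωᶜ ∧ IsPreconnected S ∧ ball p δ ∩ Ωᶜ ⊆ S ∧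
      (S ∩ interior Ωᶜ).Nonempty := by
  obtain ⟨ν, δ, η, c, hν, hδ, hη, hc, -, hext⟩ := cone hΩ hp
  have hpΩ : p ∉ Ω := hΩ.not_mem_of_frontier hp
  have hcη : 0 < c * η := by positivity
  have hB : ball (p + η * ν) (c * η) ⊆ Ωᶜ := hext p hpΩ (by simpa using hδ) η hη le_rfl
  set B : Set ℂ := ball (p + η * ν) (c * η) with hBdef
  set A : Set ℂ := ball p (min δ (c * η)) ∩ Ωᶜ with hAdef
  have hseg : ∀ z ∈ A, segment ℝ z (z + η * ν) ⊆ Ωᶜ := by
    intro z hz x hx
    rw [segment_eq_image'] at hx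
    obtain ⟨θ, ⟨h0, h1⟩, rfl⟩ := hx
    have hzδ : dist z p < δ := lt_of_lt_of_le (mem_ball.1 hz.1) (min_le_left _ _)
    rcases h0.eq_or_lt with rfl | h0
    · simpa using hz.2
    · have hmem := hext z hz.2 hzδ (θ * η) (by positivity) (by nlinarith)
      refine hmem ?_
      have : z + θ • (z + (η : ℂ) * ν - z) = z + ((θ * η : ℝ) : ℂ) * ν := by
        rw [Complex.real_smul]
        push_cast
        ring
      dsimp only
      rw [this]
      exact mem_ball_self (by positivity)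
  have hend : ∀ z ∈ A, z + η * ν ∈ B := by
    intro z hz
    have hzδ : dist z p < c * η := lt_of_lt_of_le (mem_ball.1 hz.1) (min_le_right _ _)
    rw [hBdef, mem_ball, dist_add_right]
    exact hzδ
  refine ⟨min δ (c * η), B ∪ ⋃ z ∈ A, segment ℝ z (z + η * ν), lt_min hδ hcη, ?_, ?_, ?_, ?_⟩
  · refine union_subset hB ?_
    exact iUnion₂_subset hseg
  · refine isPreconnected_of_forall (p + η * ν) ?_
    intro y hy
    rcases hy with hy | hy
    · exact ⟨B, subset_union_left, mem_ball_self hcη, hy, (convex_ball _ _).isPreconnected⟩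
    · rw [mem_iUnion₂] at hy
      obtain ⟨z, hz, hy⟩ := hy
      refine ⟨B ∪ segment ℝ z (z + η * ν), ?_, Or.inl (mem_ball_self hcη), Or.inr hy, ?_⟩
      · refine union_subset subset_union_left ?_
        intro x hx
        exact Or.inr (mem_iUnion₂.2 ⟨z, hz, hx⟩)
      · exact (convex_ball _ _).isPreconnected.union (z + η * ν) (hend z hz)
          (right_mem_segment ℝ _ _) (convex_segment _ _).isPreconnected
  · intro z hz
    exact Or.inr (mem_iUnion₂.2 ⟨z, hz, left_mem_segment ℝ _ _⟩)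
  · refine ⟨p + η * ν, Or.inl (mem_ball_self hcη), ?_⟩
    exact (isOpen_ball.subset_interior_iff.2 hB) (mem_ball_self hcη)

end Pool.Agent.EN
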