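import Pool.Agent.Helper9.Ends.Defs

/-!
# Module EN-9a: uniform exterior ball condition
-/

set_option autoImplicit false

open Set Filter Metric Topology
open scoped ContDiff

namespace Pool.Agent.EN

/-- first order Taylor expansion with quadratic error, locally uniformly -/
theorem taylor_local {ρ : ℂ → ℝ} {p₀ : ℂ} (hρ : ContDiffAt ℝ 2 ρ p₀) :
    ∃ (M R : ℝ), 0 < M ∧ 0 < R ∧ ∀ p ∈ ball p₀ R, ∀ z ∈ ball p₀ R,
      |ρ z - ρ p - fderiv ℝ ρ p (z - p)| ≤ M * ‖z - p‖ ^ 2 := by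
  have h1 : ContDiffAt ℝ 1 (fderiv ℝ ρ) p₀ := hρ.fderiv_right (by norm_num)
  obtain ⟨K, t, ht, hK⟩ := h1.exists_lipschitzOnWith
  have h2 : ∀ᶠ z in 𝓝 p₀, ContDiffAt ℝ 2 ρ z := hρ.eventually (by norm_num)
  obtain ⟨R, hR, hball⟩ := Metric.eventually_nhds_iff_ball.1 (h2.and ht)
  refine ⟨K + 1, R, by positivity, hR, ?_⟩
  intro p hp z hz
  have hseg : segment ℝ p z ⊆ ball p₀ R := (convex_ball p₀ R).segment_subset hp hz
  have hmv := Convex.norm_image_sub_le_of_norm_hasFDerivWithin_le' (𝕜 := ℝ) (f := ρ)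
    (f' := fderiv ℝ ρ) (φ := fderiv ℝ ρ p) (C := K * ‖z - p‖) (s := segment ℝ p z) (x := p)
    (y := z)
    (fun x hx => ((hball x (hseg hx)).1.differentiableAt (by norm_num)).hasFDerivAt.hasFDerivWithinAt)
    (fun x hx => ?_) (convex_segment _ _) (left_mem_segment ℝ _ _) (right_mem_segment ℝ _ _)
  · rw [Real.norm_eq_abs] at hmv
    refine hmv.trans ?_
    nlinarith [norm_nonneg (z - p), sq_nonneg ‖z - p‖]
  · have h3 := hK.dist_le_mul x (hball x (hseg hx)).2 p (hball p hp).2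
    rw [dist_eq_norm, dist_eq_norm] at h3
    refine h3.trans (mul_le_mul_of_nonneg_left ?_ K.2)
    rw [segment_eq_image'] at hx
    obtain ⟨θ, ⟨h0, h1⟩, rfl⟩ := hx
    dsimp only
    rw [add_sub_cancel_left, norm_smul, Real.norm_of_nonneg h0]
    nlinarith [norm_nonneg (z - p)]

/-- a functional on `ℂ` is given by a gradient direction -/
theorem exists_grad (L : ℂ →L[ℝ] ℝ) (hL : L ≠ 0) :
    ∃ ν : ℂ, ‖ν‖ = 1 ∧ ∀ x, L x = ‖L‖ * inner ℝ ν x := by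
  set u : ℂ := (InnerProductSpace.toDual ℝ ℂ).symm L with hu
  have hn : ‖u‖ = ‖L‖ := by rw [hu, LinearIsometryEquiv.norm_map]
  have h0 : 0 < ‖L‖ := norm_pos_iff.2 hL
  refine ⟨(‖L‖⁻¹ : ℝ) • u, ?_, ?_⟩
  · rw [norm_smul, norm_inv, norm_norm, hn, inv_mul_cancel₀ h0.ne']
  · intro x
    rw [real_inner_smul_left, ← mul_assoc, mul_inv_cancel₀ h0.ne', one_mul, hu,
      InnerProductSpace.toDual_symm_apply]

theorem exterior_ball_local {Ω : Set ℂ} (hΩ : C2Domain Ω) {p₀ : ℂ} (hp₀ : p₀ ∈ frontier Ω) :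
    ∃ R r₀ : ℝ, 0 < R ∧ 0 < r₀ ∧ ∀ r, 0 < r → r ≤ r₀ →
      ∀ p ∈ frontier Ω, p ∈ ball p₀ R → ∃ q, dist q p = r ∧ ball q r ⊆ Ωᶜ := by
  obtain ⟨ρ, hρ, hL, hloc⟩ := hΩ.smooth p₀ hp₀
  obtain ⟨M, R₁, hM, hR₁, hT⟩ := taylor_local hρ
  have h1 : ContDiffAt ℝ 1 (fderiv ℝ ρ) p₀ := hρ.fderiv_right (by norm_num)
  set m : ℝ := ‖fderiv ℝ ρ p₀‖ / 2 with hm
  have hL0 : 0 < ‖fderiv ℝ ρ p₀‖ := norm_pos_iff.2 hL
  have hm0 : 0 < m := by positivity
  have h2 : ∀ᶠ z in 𝓝 p₀, m < ‖fderiv ℝ ρ z‖ := by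
    have hc : ContinuousAt (fun z => ‖fderiv ℝ ρ z‖) p₀ := h1.continuousAt.norm
    exact hc.eventually (lt_mem_nhds (by rw [hm]; linarith))
  obtain ⟨R₂, hR₂, hball⟩ := Metric.eventually_nhds_iff_ball.1 (h2.and hloc)
  set R := min R₁ R₂ with hR
  have hR0 : 0 < R := lt_min hR₁ hR₂
  refine ⟨R / 2, min (R / 4) (m / (2 * M)), by positivity, by positivity, ?_⟩
  intro r hr hr0 p hp hpR
  have hrR : r ≤ R / 4 := hr0.trans (min_le_left _ _)
  have hrm : r ≤ m / (2 * M) := hr0.trans (min_le_right _ _)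
  have hpb : p ∈ ball p₀ R := ball_subset_ball (by linarith) hpR
  have hpn : p ∉ Ω := by
    intro h
    rw [hΩ.isOpen.frontier_eq] at hp
    exact hp.2 h
  have hp2 := hball p (ball_subset_ball (min_le_right _ _) hpb)
  have hLp : fderiv ℝ ρ p ≠ 0 := by
    rw [← norm_pos_iff]
    exact hm0.trans hp2.1
  obtain ⟨ν, hν, hgrad⟩ := exists_grad _ hLp
  have hρp : 0 ≤ ρ p := by
    by_contra h
    exact hpn (hp2.2.2 (not_le.1 h))
  refine ⟨p + (r : ℝ) • ν, ?_, ?_⟩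
  · rw [dist_eq_norm, add_sub_cancel_left, norm_smul, hν, mul_one, Real.norm_of_nonneg hr.le]
  · intro z hz
    rw [mem_ball, dist_eq_norm] at hz
    set x : ℂ := z - p with hx
    have hzx : z - (p + (r : ℝ) • ν) = x - (r : ℝ) • ν := by rw [hx]; ring
    rw [hzx] at hz
    have hxn : ‖x‖ < 2 * r := by
      calc ‖x‖ = ‖(x - (r : ℝ) • ν) + (r : ℝ) • ν‖ := by rw [sub_add_cancel]
        _ ≤ ‖x - (r : ℝ) • ν‖ + ‖(r : ℝ) • ν‖ := norm_add_le _ _
        _ < r + r := by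
          have : ‖(r : ℝ) • ν‖ = r := by
            rw [norm_smul, hν, mul_one, Real.norm_of_nonneg hr.le]
          rw [this]
          linarith
        _ = 2 * r := by ring
    have hzb : z ∈ ball p₀ R := by
      rw [mem_ball] at hpR ⊢
      calc dist z p₀ ≤ dist z p + dist p p₀ := dist_triangle _ _ _
        _ < 2 * r + R / 2 := by
          rw [dist_eq_norm z p, ← hx]
          linarith
        _ ≤ R := by linarith
    have hz2 := hball z (ball_subset_ball (min_le_right _ _) hzb)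
    rw [mem_compl_iff, hz2.2, not_lt]
    have hTz := hT p (ball_subset_ball (min_le_left _ _) hpb) z
      (ball_subset_ball (min_le_left _ _) hzb)
    rw [hgrad, ← hx] at hTz
    -- inner product inequality
    have hsq : ‖x - (r : ℝ) • ν‖ ^ 2 = ‖x‖ ^ 2 - 2 * (r * inner ℝ ν x) + r ^ 2 := by
      rw [norm_sub_sq_real, norm_smul, hν, mul_one, Real.norm_of_nonneg hr.le, real_inner_smul_right,
        real_inner_comm]
    have hlt : ‖x - (r : ℝ) • ν‖ ^ 2 < r ^ 2 := by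
      exact pow_lt_pow_left₀ hz (norm_nonneg _) (by norm_num)
    have hin : ‖x‖ ^ 2 < 2 * r * inner ℝ ν x := by nlinarith
    have hinp : 0 < (inner ℝ ν x : ℝ) := by
      by_contra h
      push Not at h
      nlinarith [sq_nonneg ‖x‖]
    have hTz' := (abs_le.1 hTz).1
    -- M * ‖x‖^2 ≤ M * 2 r inner ≤ m * inner
    have h5 : 2 * M * r ≤ m := by
      rw [le_div_iff₀ (by positivity)] at hrm
      linarith
    have h6 : M * ‖x‖ ^ 2 ≤ m * inner ℝ ν x := by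
      calc M * ‖x‖ ^ 2 ≤ M * (2 * r * inner ℝ ν x) := mul_le_mul_of_nonneg_left hin.le hM.le
        _ = (2 * M * r) * inner ℝ ν x := by ring
        _ ≤ m * inner ℝ ν x := mul_le_mul_of_nonneg_right h5 hinp.le
    have h7 : m * inner ℝ ν x ≤ ‖fderiv ℝ ρ p‖ * inner ℝ ν x :=
      mul_le_mul_of_nonneg_right hp2.1.le hinp.le
    linarith

/-- EN-9a: uniform exterior ball condition -/
theorem exterior_ball {Ω : Set ℂ} (hΩ : C2Domain Ω) :
    ∃ r₀ : ℝ, 0 < r₀ ∧ ∀ r, 0 < r → r ≤ r₀ →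
      ∀ p ∈ frontier Ω, ∃ q, dist q p = r ∧ ball q r ⊆ Ωᶜ := by
  have hcomp : IsCompact (frontier Ω) :=
    Metric.isCompact_of_isClosed_isBounded isClosed_frontier
      (hΩ.bounded.closure.subset frontier_subset_closure)
  have key : ∃ r₀ : ℝ, 0 < r₀ ∧ ∀ r, 0 < r → r ≤ r₀ →
      ∀ p ∈ frontier Ω, p ∈ frontier Ω → ∃ q, dist q p = r ∧ ball q r ⊆ Ωᶜ := by
    refine hcomp.induction_on (p := fun S => ∃ r₀ : ℝ, 0 < r₀ ∧ ∀ r, 0 < r → r ≤ r₀ →
      ∀ p ∈ S, p ∈ frontier Ω → ∃ q, dist q p = r ∧ ball q r ⊆ Ωᶜ) ?_ ?_ ?_ ?_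
    · exact ⟨1, one_pos, fun r _ _ p hp => absurd hp (notMem_empty p)⟩
    · rintro s t hst ⟨r₀, h0, h⟩
      exact ⟨r₀, h0, fun r hr hr' p hp => h r hr hr' p (hst hp)⟩
    · rintro s t ⟨r₁, h1, hs⟩ ⟨r₂, h2, ht⟩
      refine ⟨min r₁ r₂, lt_min h1 h2, fun r hr hr' p hp => ?_⟩
      rcases hp with hp | hp
      · exact hs r hr (hr'.trans (min_le_left _ _)) p hp
      · exact ht r hr (hr'.trans (min_le_right _ _)) p hp
    · intro p₀ hp₀
      obtain ⟨R, r₀, hR, hr₀, h⟩ := exterior_ball_local hΩ hp₀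
      exact ⟨ball p₀ R, mem_nhdsWithin_of_mem_nhds (ball_mem_nhds _ hR), r₀, hr₀,
        fun r hr hr' p hp hpf => h r hr hr' p hpf hp⟩
  obtain ⟨r₀, h0, h⟩ := key
  exact ⟨r₀, h0, fun r hr hr' p hp => h r hr hr' p hp hp⟩

end Pool.Agent.EN
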